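import Pool.Agent.Helper76.TK7.StK

/-!
# Project TK (levels `3 * 7^n`), module DIMEK7: the dimension of subEK
-/

set_option autoImplicit false

namespace Pool.Agent.Helper86.TK7

open Pool.Agent.Helper14.CV (Homog EqC act StFar)
open Pool.Agent.Helper76.S7
open Pool.Agent.Helper4.TK
open Pool.Agent.Helper76.TK7

section lin

variable {W W' : Type} [AddCommGroup W] [Module ℂ W] [FiniteDimensional ℂ W] [AddCommGroup W']
  [Module ℂ W']

private theorem rn (f : W →ₗ[ℂ] W') (V : Submodule ℂ W) :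
    Module.finrank ℂ (V.map f) + Module.finrank ℂ ↥(V ⊓ LinearMap.ker f) =
      Module.finrank ℂ V := by
  have h := LinearMap.finrank_range_add_finrank_ker (f.domRestrict V)
  rw [LinearMap.range_domRestrict, LinearMap.ker_domRestrict] at h
  have h2 : Module.finrank ℂ ↥((LinearMap.ker f).comap V.subtype) =
      Module.finrank ℂ ↥(V ⊓ LinearMap.ker f) := by
    rw [← Submodule.map_comap_subtype, Submodule.finrank_map_subtype_eq]
  rw [h2] at h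
  exact h

end lin

section lin2

variable {W W' : Type} [AddCommGroup W] [Module ℂ W] [FiniteDimensional ℂ W] [AddCommGroup W']
  [Module ℂ W'] [FiniteDimensional ℂ W']

private theorem fr_prod (V : Submodule ℂ W) (V' : Submodule ℂ W') :
    Module.finrank ℂ ↥(V.prod V') = Module.finrank ℂ V + Module.finrank ℂ V' := by
  have h1 : V.prod V' = LinearMap.range (V.subtype.prodMap V'.subtype) := by
    rw [LinearMap.range_prodMap, Submodule.range_subtype, Submodule.range_subtype]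
  rw [h1, LinearMap.finrank_range_of_inj, Module.finrank_prod]
  rintro ⟨a, b⟩ ⟨a', b'⟩ h
  simp only [LinearMap.prodMap_apply, Submodule.subtype_apply, Prod.mk.injEq,
    SetLike.coe_eq_coe] at h
  rw [h.1, h.2]

end lin2

private theorem pw0 {m : ℕ} (hm : 1 ≤ m) : (7 : ZMod (7 ^ m)) * 7 ^ (m - 1) = 0 := by
  rw [← pow_succ', Nat.sub_add_cancel hm]
  have h3 := ZMod.natCast_self (7 ^ m)
  push_cast at h3
  exact h3

private theorem red {m : ℕ} (hm : 1 ≤ m) (t : ℤ) :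
    (t : ZMod (7 ^ m)) * 7 ^ (m - 1) = ((t : ZMod 7).val : ZMod (7 ^ m)) * 7 ^ (m - 1) := by
  have h1 : ((t : ZMod 7).val : ℤ) = t % 7 := by
    rw [ZMod.val_intCast]
    norm_num
  have h2 : (((t : ZMod 7).val : ℕ) : ZMod (7 ^ m)) = ((t % 7 : ℤ) : ZMod (7 ^ m)) := by
    rw [← h1]
    push_cast
    rfl
  rw [h2]
  have h3 : t = t % 7 + 7 * (t / 7) := (Int.emod_add_mul_ediv t 7).symm
  have h4 : (t : ZMod (7 ^ m)) = ((t % 7 : ℤ) : ZMod (7 ^ m)) + 7 * ((t / 7 : ℤ) : ZMod (7 ^ m)) := by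
    conv_lhs => rw [h3]
    push_cast
    ring
  rw [h4]
  linear_combination ((t / 7 : ℤ) : ZMod (7 ^ m)) * pw0 hm

private theorem sum_zmod (g : ℕ → ℂ) :
    ∑ i ∈ Finset.range 7, g i = ∑ z : ZMod 7, g z.val := by
  have : ∀ h : ZMod 7 → ℂ, ∑ z : ZMod 7, h z = ∑ i : Fin 7, h i := fun h => rfl
  rw [Finset.sum_range, this]
  rfl

private theorem sum_s {m : ℕ} (hm : 1 ≤ m) (s : ℤ) (hs : ¬ (7 : ℤ) ∣ s)
    (g : ZMod (7 ^ m) → ℂ) :
    ∑ i ∈ Finset.range 7, g (s * ((i : ZMod (7 ^ m)) * 7 ^ (m - 1))) =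
      ∑ i ∈ Finset.range 7, g ((i : ZMod (7 ^ m)) * 7 ^ (m - 1)) := by
  have hf : Fact (Nat.Prime 7) := ⟨by norm_num⟩
  have hs0 : (s : ZMod 7) ≠ 0 := by
    intro h
    exact hs ((ZMod.intCast_zmod_eq_zero_iff_dvd s 7).1 h)
  rw [sum_zmod (fun i => g (s * ((i : ZMod (7 ^ m)) * 7 ^ (m - 1)))),
    sum_zmod (fun i => g ((i : ZMod (7 ^ m)) * 7 ^ (m - 1)))]
  refine Fintype.sum_equiv (Equiv.mulLeft₀ (s : ZMod 7) hs0) _ _ fun z => ?_
  have h1 := red hm (s * (z.val : ℤ))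
  have h2 : ((s * (z.val : ℤ) : ℤ) : ZMod 7) = (s : ZMod 7) * z := by
    push_cast
    rw [ZMod.natCast_zmod_val]
  rw [h2] at h1
  change g (s * ((z.val : ZMod (7 ^ m)) * 7 ^ (m - 1))) =
    g ((((s : ZMod 7) * z).val : ZMod (7 ^ m)) * 7 ^ (m - 1))
  rw [← h1]
  congr 1
  push_cast
  ring

private theorem anti_s {m : ℕ} (hm : 1 ≤ m) {F : Pt m → ℂ} (hF : F ∈ anti7 m) (s : ℤ)
    (hs : ¬ (7 : ℤ) ∣ s) (x y : ZMod (7 ^ m)) :
    ∑ i ∈ Finset.range 7, F (x + s * (i * 7 ^ (m - 1)), y) = 0 ∧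
      ∑ i ∈ Finset.range 7, F (x, y + s * (i * 7 ^ (m - 1))) = 0 := by
  obtain ⟨h1, h2⟩ := hF (x, y)
  constructor
  · rw [sum_s hm s hs (fun t => F (x + t, y))]
    exact h1
  · rw [sum_s hm s hs (fun t => F (x, y + t))]
    exact h2

private theorem dv_step {m : ℕ} (hm : 1 ≤ m) {s : ℤ} {φ : ZMod (7 ^ m) → ZMod (7 ^ m)}
    (h : Dv s φ) (x : ZMod (7 ^ m)) (i : ℕ) :
    φ (x + i * 7 ^ (m - 1)) = φ x + s * (i * 7 ^ (m - 1)) := by
  have h1 := h (m - 1) (x + i * 7 ^ (m - 1)) x ⟨i, by ring⟩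
  have h2 : (7 : ZMod (7 ^ m)) ^ (m - 1 + 1) = 0 := by
    rw [Nat.sub_add_cancel hm]
    have h3 := ZMod.natCast_self (7 ^ m)
    push_cast at h3
    exact h3
  rw [h2, zero_dvd_iff] at h1
  linear_combination h1

private theorem anti_comp {m n : ℕ} (hm : 1 ≤ m) {r : Pt m → Pt m} (hr : Ty n r) {F : Pt m → ℂ}
    (hF : F ∈ anti7 m) : (fun p => F (r p)) ∈ anti7 m := by
  rcases hr with ⟨_, s, s', φ, φ', hs, _, hs', _, hφ, hφ', hr⟩ | ⟨_, s, s', ψ, ψ', hs, hs', hψ, hψ', hr⟩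
  · intro p
    simp only [hr, dv_step hm hφ, dv_step hm hφ']
    exact ⟨(anti_s hm hF s hs (φ p.1) (φ' p.2)).1, (anti_s hm hF s' hs' (φ p.1) (φ' p.2)).2⟩
  · intro p
    simp only [hr, dv_step hm hψ, dv_step hm hψ']
    exact ⟨(anti_s hm hF s' hs' (ψ p.2) (ψ' p.1)).2, (anti_s hm hF s hs (ψ p.2) (ψ' p.1)).1⟩

/-- The space in which `subEK` lies. -/
private abbrev SpK (m : ℕ) : Type :=
  (((Pt m → ℂ) × (Pt m → ℂ)) × ((Pt m → ℂ) × (Pt m → ℂ))) ×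
    (((Pt m → ℂ) × (Pt m → ℂ)) × ((Pt m → ℂ) × (Pt m → ℂ)))

private def K0 {m : ℕ} : SpK m →ₗ[ℂ] (Pt m → ℂ) where
  toFun F p := hhK F.1.1.1 F.1.1.2 p + hhK F.1.1.1 F.1.1.2 (c4K p)
  map_add' F F' := by
    funext p
    simp only [hhK, Prod.fst_add, Prod.snd_add, Pi.add_apply]
    ring
  map_smul' c F := by
    funext p
    simp only [hhK, Prod.smul_fst, Prod.smul_snd, Pi.smul_apply, smul_eq_mul, RingHom.id_apply]
    ring

private def K2 {m : ℕ} : SpK m →ₗ[ℂ] (Pt m → ℂ) where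
  toFun F p := zzK F.1.1.2 F.1.2.1 F.1.2.2 F.2.1.1 F.2.1.2 F.2.2.1 p +
    zzK F.1.1.2 F.1.2.1 F.1.2.2 F.2.1.1 F.2.1.2 F.2.2.1 (c2K p)
  map_add' F F' := by
    funext p
    simp only [zzK, mmK, Prod.fst_add, Prod.snd_add, Pi.add_apply]
    ring
  map_smul' c F := by
    funext p
    simp only [zzK, mmK, Prod.smul_fst, Prod.smul_snd, Pi.smul_apply, smul_eq_mul,
      RingHom.id_apply]
    ring

private def K3 {m : ℕ} : SpK m →ₗ[ℂ] (Pt m → ℂ) where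
  toFun F p := yyK F.2.2.1 F.2.2.2 p - yyK F.2.2.1 F.2.2.2 (dR 1 p)
  map_add' F F' := by
    funext p
    simp only [yyK, Prod.fst_add, Prod.snd_add, Pi.add_apply]
    ring
  map_smul' c F := by
    funext p
    simp only [yyK, Prod.smul_fst, Prod.smul_snd, Pi.smul_apply, smul_eq_mul, RingHom.id_apply]
    ring

private def K4 {m : ℕ} : SpK m →ₗ[ℂ] (Pt m → ℂ) where
  toFun F p := sumE F.2.2.2 p
  map_add' F F' := by
    funext p
    simp only [sumE, Prod.snd_add, Pi.add_apply]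
    ring
  map_smul' c F := by
    funext p
    simp only [sumE, Prod.smul_snd, Pi.smul_apply, smul_eq_mul, RingHom.id_apply]
    ring

private theorem K0_apply {m : ℕ} (F : SpK m) (p : Pt m) :
    K0 F p = hhK F.1.1.1 F.1.1.2 p + hhK F.1.1.1 F.1.1.2 (c4K p) := rfl

private theorem K2_apply {m : ℕ} (F : SpK m) (p : Pt m) :
    K2 F p = zzK F.1.1.2 F.1.2.1 F.1.2.2 F.2.1.1 F.2.1.2 F.2.2.1 p +
      zzK F.1.1.2 F.1.2.1 F.1.2.2 F.2.1.1 F.2.1.2 F.2.2.1 (c2K p) := rfl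

private theorem K3_apply {m : ℕ} (F : SpK m) (p : Pt m) :
    K3 F p = yyK F.2.2.1 F.2.2.2 p - yyK F.2.2.1 F.2.2.2 (dR 1 p) := rfl

private theorem K4_apply {m : ℕ} (F : SpK m) (p : Pt m) : K4 F p = sumE F.2.2.2 p := rfl

private theorem n1 : (((-1 : ℤ) : ℂ)) = -1 := by push_cast; rfl
private theorem p1 : (((1 : ℤ) : ℂ)) = 1 := by push_cast; rfl

private theorem hh_mem {m : ℕ} (hm : 1 ≤ m) (hsw : Ty 1 (swK : Pt m → Pt m)) {f u : Pt m → ℂ}
    (hf : f ∈ anti7 m) (hu : u ∈ anti7 m) : hhK f u ∈ anti7 m := by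
  have e : hhK f u = f - u - (fun p => u (swK p)) := rfl
  rw [e]
  exact Submodule.sub_mem _ (Submodule.sub_mem _ hf hu) (anti_comp hm hsw hu)

private theorem mm_mem {m : ℕ} (hm : 1 ≤ m) (hg : Ty 1 (gAK : Pt m → Pt m))
    {u F1 F2 D C : Pt m → ℂ} (hu : u ∈ anti7 m) (h1 : F1 ∈ anti7 m) (h2 : F2 ∈ anti7 m)
    (hD : D ∈ anti7 m) (hC : C ∈ anti7 m) : mmK u F1 F2 D C ∈ anti7 m := by
  have e : mmK u F1 F2 D C = F1 - F2 - D - C - (fun p => u (gAK p)) + (fun p => F1 (gAK p)) := rfl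
  rw [e]
  exact Submodule.add_mem _ (Submodule.sub_mem _ (Submodule.sub_mem _ (Submodule.sub_mem _
    (Submodule.sub_mem _ h1 h2) hD) hC) (anti_comp hm hg hu)) (anti_comp hm hg h1)

private theorem zz_mem {m : ℕ} (hm : 1 ≤ m) (hg : Ty 1 (gAK : Pt m → Pt m))
    (hg' : Ty 1 (gBK : Pt m → Pt m))
    {u F1 F2 D C F3 : Pt m → ℂ} (hu : u ∈ anti7 m) (h1 : F1 ∈ anti7 m) (h2 : F2 ∈ anti7 m)
    (hD : D ∈ anti7 m) (hC : C ∈ anti7 m) (h3 : F3 ∈ anti7 m) : zzK u F1 F2 D C F3 ∈ anti7 m := by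
  have e : zzK u F1 F2 D C F3 = F3 - F2 + (fun p => mmK u F1 F2 D C (gBK p)) := rfl
  rw [e]
  exact Submodule.add_mem _ (Submodule.sub_mem _ h3 h2)
    (anti_comp hm hg' (mm_mem hm hg hu h1 h2 hD hC))

private theorem yy_mem {m : ℕ} (hm : 1 ≤ m) (hc : Ty 1 (c3K : Pt m → Pt m)) {F3 J : Pt m → ℂ}
    (h3 : F3 ∈ anti7 m) (hJ : J ∈ anti7 m) : yyK F3 J ∈ anti7 m := by
  have e : yyK F3 J = J - F3 - (fun p => F3 (c3K p)) := rfl
  rw [e]
  exact Submodule.sub_mem _ (Submodule.sub_mem _ hJ h3) (anti_comp hm hc h3)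

/-- `sumE` as a sum over the words in `c3K` and `c0K`. -/
private theorem sumE_eq {m : ℕ}
    (w : ∀ p : Pt m, c3K (c0K p) = trp 1 81 (-43) 3 (-78) p ∧
      c3K (c0K (c3K (c0K p))) = trp 1 80 (-43) 3 (-79) p ∧
      c3K (c0K (c3K (c0K (c3K (c0K p))))) = trp 1 159 (-86) 6 (-159) p ∧
      c0K (c3K (c0K (c3K p))) = trp 1 79 (-43) 3 (-80) p ∧
      c0K (c3K p) = trp 1 78 (-43) 3 (-81) p) (F : Pt m → ℂ) (p : Pt m) :
    sumE F p = F p + F (c3K (c0K p)) + F (c3K (c0K (c3K (c0K p)))) +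
      F (c3K (c0K (c3K (c0K (c3K (c0K p)))))) + F (c0K (c3K (c0K (c3K p)))) +
      F (c0K (c3K p)) := by
  obtain ⟨w1, w2, w3, w4, w5⟩ := w p
  rw [w3, w2, w1, w4, w5]
  rfl

/-- **Module DIMEK7.** -/
theorem hDimEK : StHDimEK := by
  intro ht h12 hk hs m hm
  obtain ⟨⟨a1, a2, a3, a4⟩, -, -, -, ⟨b1, b2, b3⟩, ⟨c1, c2, c3, c4⟩, ⟨d1, d2⟩, ⟨x1, x2⟩,
    ⟨y1, y2⟩, ⟨z1, z2⟩, ⟨g1, g2⟩, -, w⟩ := ht m
  obtain ⟨eV, q1, q2, -⟩ := hk m hm
  have eF := q2 ng swK 0 1 1 1 1 a1 a2 a3 a4 (Or.inl rfl) (Or.inl rfl)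
  have eD := q1 d5K 1 y1 y2 (Or.inl rfl)
  have eC := q1 c7K (-1) z1 z2 (Or.inr rfl)
  have eJ := q1 c3K 1 c1.2.1 c3 (Or.inl rfl)
  have e0 := q2 swK c4K 1 1 0 1 1 b1 a3 b2 b3 (Or.inl rfl) (Or.inl rfl)
  have e2 := q1 c2K 1 x1 x2 (Or.inl rfl)
  have e3 := q2 (dR 1) c3K 0 1 1 (-1) 1 c1 c2 c3 c4 (Or.inr rfl) (Or.inl rfl)
  have e4 := h12 m hm c3K c0K d1 d2
  rw [p1] at eF eD eJ e0 e2
  rw [n1] at eC
  rw [n1, p1] at e3
  obtain ⟨r1, r2, r3⟩ := d1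
  obtain ⟨-, s1, s2, s3, s4, s5⟩ := d2
  set Vf := inv7 (m := m) ng swK 1 1 with hVf
  set VD := inv1 (m := m) d5K 1 with hVD
  set VC := inv1 (m := m) c7K (-1) with hVC
  set VJ := inv1 (m := m) c3K 1 with hVJ
  set T0 := inv7 (m := m) swK c4K 1 1 with hT0
  set T2 := inv1 (m := m) c2K 1 with hT2
  set T3 := inv7 (m := m) (dR 1) c3K (-1) 1 with hT3
  set T4 := inv7 (m := m) c3K c0K 1 1 with hT4
  set Q : SpK m →ₗ[ℂ] (((Pt m → ℂ) × (Pt m → ℂ)) × ((Pt m → ℂ) × (Pt m → ℂ))) :=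
    LinearMap.prod (LinearMap.prod K0 K2) (LinearMap.prod K3 K4) with hQ
  have hQa : ∀ F, Q F = ((K0 F, K2 F), (K3 F, K4 F)) := fun _ => rfl
  have hmap : (((Vf.prod (anti7 m)).prod ((anti7 m).prod (anti7 m))).prod
      ((VD.prod VC).prod ((anti7 m).prod VJ))).map Q = (T0.prod T2).prod (T3.prod T4) := by
    apply le_antisymm
    · rintro _ ⟨F, hF, rfl⟩
      obtain ⟨⟨⟨hf, hu⟩, h1, h2⟩, ⟨hD, hC⟩, h3, hJ⟩ := hF
      have hfs : ∀ p, F.1.1.1 (swK p) = F.1.1.1 p := by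
        intro p
        rw [(hf.2 p).2, one_mul]
      have hJs : ∀ p, F.2.2.2 (c3K p) = F.2.2.2 p := by
        intro p
        rw [hJ.2 p, one_mul]
      have hh := hh_mem hm a3 hf.1 hu
      have hz := zz_mem hm g1 g2 hu h1 h2 hD.1 hC.1 h3
      have hy := yy_mem hm c3 h3 hJ.1
      have hhs : ∀ p, hhK F.1.1.1 F.1.1.2 (swK p) = hhK F.1.1.1 F.1.1.2 p := by
        intro p
        simp only [hhK]
        rw [hfs p, a1.2.1 p]
        ring
      have hyc : ∀ p, yyK F.2.2.1 F.2.2.2 (c3K p) = yyK F.2.2.1 F.2.2.2 p := by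
        intro p
        simp only [yyK]
        rw [hJs p, r1 p]
        ring
      rw [hQa]
      refine ⟨⟨⟨?_, fun p => ⟨?_, ?_⟩⟩, ⟨?_, fun p => ?_⟩⟩, ⟨?_, fun p => ⟨?_, ?_⟩⟩,
        ⟨?_, fun p => ⟨?_, ?_⟩⟩⟩
      · have e : K0 F = hhK F.1.1.1 F.1.1.2 + (fun p => hhK F.1.1.1 F.1.1.2 (c4K p)) := rfl
        rw [e]
        exact Submodule.add_mem _ hh (anti_comp hm b2 hh)
      · show K0 F (swK p) = 1 * K0 F p
        rw [K0_apply, K0_apply, hhs p, ← b1.2.2 p, hhs (c4K p)]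
        ring
      · show K0 F (c4K p) = 1 * K0 F p
        rw [K0_apply, K0_apply, b1.2.1 p]
        ring
      · have e : K2 F = zzK F.1.1.2 F.1.2.1 F.1.2.2 F.2.1.1 F.2.1.2 F.2.2.1 +
            (fun p => zzK F.1.1.2 F.1.2.1 F.1.2.2 F.2.1.1 F.2.1.2 F.2.2.1 (c2K p)) := rfl
        rw [e]
        exact Submodule.add_mem _ hz (anti_comp hm x2 hz)
      · show K2 F (c2K p) = 1 * K2 F p
        rw [K2_apply, K2_apply, x1 p]
        ring
      · have e : K3 F = yyK F.2.2.1 F.2.2.2 - (fun p => yyK F.2.2.1 F.2.2.2 (dR 1 p)) := rfl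
        rw [e]
        exact Submodule.sub_mem _ hy (anti_comp hm c2 hy)
      · show K3 F (dR 1 p) = -1 * K3 F p
        rw [K3_apply, K3_apply, c1.1 p]
        ring
      · show K3 F (c3K p) = 1 * K3 F p
        rw [K3_apply, K3_apply, hyc p, c1.2.2 p, hyc (dR 1 p)]
        ring
      · have e : K4 F = F.2.2.2 + (fun p => F.2.2.2 (c3K (c0K p))) +
            (fun p => F.2.2.2 (c3K (c0K (c3K (c0K p))))) +
            (fun p => F.2.2.2 (c3K (c0K (c3K (c0K (c3K (c0K p))))))) +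
            (fun p => F.2.2.2 (c0K (c3K (c0K (c3K p))))) + (fun p => F.2.2.2 (c0K (c3K p))) := by
          funext p
          exact sumE_eq w _ p
        rw [e]
        exact Submodule.add_mem _ (Submodule.add_mem _ (Submodule.add_mem _ (Submodule.add_mem _
          (Submodule.add_mem _ hJ.1 (anti_comp hm s1 hJ.1)) (anti_comp hm s3 hJ.1))
          (anti_comp hm s5 hJ.1)) (anti_comp hm s4 hJ.1)) (anti_comp hm s2 hJ.1)
      · show K4 F (c3K p) = 1 * K4 F p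
        rw [K4_apply, K4_apply, sumE_eq w, sumE_eq w, r3 (c3K p), r1 p]
        simp only [hJs]
        ring
      · show K4 F (c0K p) = 1 * K4 F p
        rw [K4_apply, K4_apply, sumE_eq w, sumE_eq w, r2 p]
        simp only [hJs]
        ring
    · rintro ⟨⟨φ0, φ2⟩, ⟨φ3, φ4⟩⟩ ⟨⟨hφ0, hφ2⟩, hφ3, hφ4⟩
      simp only at hφ0 hφ2 hφ3 hφ4
      have k01 : ∀ p, φ0 (swK p) = φ0 p := fun p => by rw [(hφ0.2 p).1, one_mul]
      have k02 : ∀ p, φ0 (c4K p) = φ0 p := fun p => by rw [(hφ0.2 p).2, one_mul]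
      have k2 : ∀ p, φ2 (c2K p) = φ2 p := fun p => by rw [hφ2.2 p, one_mul]
      have k31 : ∀ p, φ3 (dR 1 p) = -φ3 p := fun p => by rw [(hφ3.2 p).1]; ring
      have k32 : ∀ p, φ3 (c3K p) = φ3 p := fun p => by rw [(hφ3.2 p).2, one_mul]
      have k41 : ∀ p, φ4 (c3K p) = φ4 p := fun p => by rw [(hφ4.2 p).1, one_mul]
      have k42 : ∀ p, φ4 (c0K p) = φ4 p := fun p => by rw [(hφ4.2 p).2, one_mul]
      obtain ⟨J, hJd⟩ : ∃ J : Pt m → ℂ, J = (6 : ℂ)⁻¹ • φ4 := ⟨_, rfl⟩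
      have hJ : J ∈ anti7 m := by
        rw [hJd]
        exact Submodule.smul_mem _ _ hφ4.1
      have hJp : ∀ p, J p = 6⁻¹ * φ4 p := fun p => by rw [hJd]; rfl
      have hJc : ∀ p, J (c3K p) = J p := fun p => by rw [hJp, hJp, k41 p]
      have hYm : yyK ((2 : ℂ)⁻¹ • φ2) J ∈ anti7 m :=
        yy_mem hm c3 (Submodule.smul_mem _ _ hφ2.1) hJ
      obtain ⟨Y, hYd⟩ : ∃ Y : Pt m → ℂ, Y = yyK ((2 : ℂ)⁻¹ • φ2) J := ⟨_, rfl⟩
      rw [← hYd] at hYm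
      have hYp : ∀ p, Y p = J p - 2⁻¹ * φ2 p - 2⁻¹ * φ2 (c3K p) := fun p => by rw [hYd]; rfl
      have hYc : ∀ p, Y (c3K p) = Y p := fun p => by
        rw [hYp, hYp, hJc p, r1 p]
        ring
      obtain ⟨χ, hχd⟩ : ∃ χ : Pt m → ℂ, χ = φ3 - (Y - fun p => Y (dR 1 p)) := ⟨_, rfl⟩
      have hχ : χ ∈ anti7 m := by
        rw [hχd]
        exact Submodule.sub_mem _ hφ3.1 (Submodule.sub_mem _ hYm (anti_comp hm c2 hYm))
      have hχp : ∀ p, χ p = φ3 p - (Y p - Y (dR 1 p)) := fun p => by rw [hχd]; rfl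
      have hχ1 : ∀ p, χ (dR 1 p) = -χ p := fun p => by
        rw [hχp, hχp, k31 p, c1.1 p]
        ring
      have hχ2 : ∀ p, χ (c3K p) = χ p := fun p => by
        rw [hχp, hχp, k32 p, hYc p, c1.2.2 p, hYc (dR 1 p)]
      obtain ⟨f0, hf0, l0, hl0, hfn0, hld0, hfl0⟩ := hs 1 m hm ((4 : ℂ)⁻¹ • φ0 - (4 : ℂ)⁻¹ • χ)
        (Submodule.sub_mem _ (Submodule.smul_mem _ _ hφ0.1) (Submodule.smul_mem _ _ hχ))
      have t0 : ∀ p, f0 p + l0 p = 4⁻¹ * φ0 p - 4⁻¹ * χ p := hfl0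
      have hfs := anti_comp hm a3 hf0
      obtain ⟨g, hgd⟩ : ∃ g : Pt m → ℂ, g = f0 - (4 : ℂ)⁻¹ • φ0 := ⟨_, rfl⟩
      have hg : g ∈ anti7 m := by
        rw [hgd]
        exact Submodule.sub_mem _ hf0 (Submodule.smul_mem _ _ hφ0.1)
      have hgp : ∀ p, g p = f0 p - 4⁻¹ * φ0 p := fun p => by rw [hgd]; rfl
      have hgl : ∀ p, g p = -l0 p - 4⁻¹ * χ p := fun p => by
        rw [hgp]
        linear_combination t0 p
      refine ⟨(((f0 + (fun p => f0 (swK p)), g), (g, g)),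
          ((0, 0), (g + (2 : ℂ)⁻¹ • φ2, J))),
        ⟨⟨⟨⟨?_, fun p => ⟨?_, ?_⟩⟩, hg⟩, hg, hg⟩,
          ⟨Submodule.zero_mem _, Submodule.zero_mem _⟩,
          Submodule.add_mem _ hg (Submodule.smul_mem _ _ hφ2.1), hJ, fun p => ?_⟩, ?_⟩
      · exact Submodule.add_mem _ hf0 hfs
      · simp only [Pi.add_apply]
        rw [← a1.2.2 p, hfn0 p, hfn0 (swK p)]
        ring
      · simp only [Pi.add_apply]
        rw [a1.2.1 p]
        ring
      · show J (c3K p) = 1 * J p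
        rw [hJc p, one_mul]
      · rw [hQa, Prod.mk.injEq, Prod.mk.injEq, Prod.mk.injEq]
        refine ⟨⟨?_, ?_⟩, ?_, ?_⟩
        · funext p
          rw [K0_apply]
          simp only [hhK, Pi.add_apply]
          rw [hgp p, hgp (swK p), hgp (c4K p), hgp (swK (c4K p)), k01 (c4K p), k01 p, k02 p]
          ring
        · funext p
          rw [K2_apply]
          simp only [zzK, mmK, Pi.add_apply, Pi.smul_apply, smul_eq_mul, Pi.zero_apply]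
          rw [k2 p]
          ring
        · funext p
          have v1 := hYp p
          have v2 := hYp (dR 1 p)
          have v3 := hχp p
          rw [K3_apply]
          simp only [yyK, Pi.add_apply, Pi.smul_apply, smul_eq_mul]
          rw [hgl p, hgl (c3K p), hgl (dR 1 p), hgl (c3K (dR 1 p)), ← c1.2.2 p, hld0 p,
            hld0 (c3K p), hχ1 p, hχ1 (c3K p), hχ2 p]
          rw [← c1.2.2 p] at v2
          linear_combination v3 - v1 + v2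
        · funext p
          rw [K4_apply, sumE_eq w]
          simp only [hJp, k41, k42]
          ring
  have hker : (((Vf.prod (anti7 m)).prod ((anti7 m).prod (anti7 m))).prod
      ((VD.prod VC).prod ((anti7 m).prod VJ))) ⊓ LinearMap.ker Q = subEK m := by
    ext F
    constructor
    · rintro ⟨⟨⟨⟨h1, h2⟩, h3, h4⟩, ⟨h5, h6⟩, h7, h8⟩, h9⟩
      rw [SetLike.mem_coe, LinearMap.mem_ker, hQa, Prod.mk_eq_zero, Prod.mk_eq_zero,
        Prod.mk_eq_zero] at h9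
      obtain ⟨⟨k0, k2⟩, k3, k4⟩ := h9
      exact ⟨⟨h1, h2, h3, h4⟩, ⟨h5, h6, h7, h8⟩, fun p => congrFun k0 p, fun p => congrFun k2 p,
        fun p => congrFun k3 p, fun p => congrFun k4 p⟩
    · rintro ⟨⟨h1, h2, h3, h4⟩, ⟨h5, h6, h7, h8⟩, k0, k2, k3, k4⟩
      refine ⟨⟨⟨⟨h1, h2⟩, h3, h4⟩, ⟨h5, h6⟩, h7, h8⟩, ?_⟩
      rw [SetLike.mem_coe, LinearMap.mem_ker, hQa, Prod.mk_eq_zero, Prod.mk_eq_zero,
        Prod.mk_eq_zero]
      exact ⟨⟨funext k0, funext k2⟩, funext k3, funext k4⟩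
  have h6 := rn Q (((Vf.prod (anti7 m)).prod ((anti7 m).prod (anti7 m))).prod
      ((VD.prod VC).prod ((anti7 m).prod VJ)))
  rw [hmap, hker] at h6
  simp only [fr_prod] at h6
  apply Nat.eq_sub_of_add_eq
  zify at h6 eV e4 ⊢
  push_cast at eF eD eC eJ e0 e2 e3
  linarith

end Pool.Agent.Helper86.TK7
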